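import Pool.Agent.V11268.PerTower

set_option autoImplicit false

/-!
# The numbers `c ^ (π ^ b)` with rational `b`

`InP γ x`: the logarithm of the positive real number `x` is a linear combination, with algebraic
coefficients, of logarithms of algebraic numbers, of integrals of rational functions of one
variable with algebraic coefficients over compact intervals with algebraic end points, and of
the `g` arbitrary complex numbers `γ 0, ..., γ (g - 1)` (`Forms γ` of the starting library).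

`Mg g` is the smaller one of `2 g + 2` and `g + 2 √g + 2`, so `Mg 0 = 2`.

`π ^ π` is the number `c ^ (π ^ b)` for `c = π`, `b = 1`.
-/

namespace Pool.Agent.Results.MP_4c2ad3_nt.DifferencesOfExponents

open V11268.PerG (InP Mg)
open scoped Pointwise

theorem result :
    (∀ (g : ℕ) (γ : Fin g → ℂ),
      -- (0) positive algebraic numbers
      (∀ x : ℝ, 0 < x → IsAlgebraic ℚ x → InP γ x) ∧
      ∀ c : ℝ, 0 < c → c ≠ 1 →
        -- (1) few exponents with a given difference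
        (∀ h : ℚ, h ≠ 0 →
          {b : ℚ | InP γ (c ^ (Real.pi ^ (b : ℝ))) ∧
            InP γ (c ^ (Real.pi ^ ((b + h : ℚ) : ℝ)))}.Finite ∧
          ({b : ℚ | InP γ (c ^ (Real.pi ^ (b : ℝ))) ∧
            InP γ (c ^ (Real.pi ^ ((b + h : ℚ) : ℝ)))}.ncard : ℝ) ≤ Mg g) ∧
        -- (2) finite sets of exponents
        (∀ B X : Finset ℚ, X.Nonempty →
          ({b : ℚ | b ∈ B ∧ InP γ (c ^ (Real.pi ^ (b : ℝ)))}.ncard : ℝ) ^ 2 * X.card ≤
            (B + X).card * ({b : ℚ | b ∈ B ∧ InP γ (c ^ (Real.pi ^ (b : ℝ)))}.ncard +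
              Mg g * (X.card - 1))) ∧
        -- (3) arithmetic progressions of exponents
        (∀ a h : ℚ, h ≠ 0 → ∀ N : ℕ,
          ({k : ℕ | 1 ≤ k ∧ k ≤ N ∧
            InP γ (c ^ (Real.pi ^ ((a + k * h : ℚ) : ℝ)))}.ncard : ℝ) ≤
            Real.sqrt (Mg g * N) + Real.sqrt (Real.sqrt (Mg g * N)) + 1)) ∧
    -- (4) algebraic numbers in the sequence `c ^ (π ^ k)`, for instance for `c = π`
    (∀ c : ℝ, 0 < c → c ≠ 1 → ∀ N : ℕ,
      ({k : ℕ | 1 ≤ k ∧ k ≤ N ∧ IsAlgebraic ℚ (c ^ (Real.pi ^ (k : ℝ)))}.ncard : ℝ) ≤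
        Real.sqrt (2 * N) + Real.sqrt (Real.sqrt (2 * N)) + 1) ∧
    (∀ N : ℕ,
      ({k : ℕ | 1 ≤ k ∧ k ≤ N ∧ IsAlgebraic ℚ (Real.pi ^ (Real.pi ^ (k : ℝ)))}.ncard : ℝ) ≤
        Real.sqrt (2 * N) + Real.sqrt (Real.sqrt (2 * N)) + 1) := by
  have h0 : 0 < Real.pi := Real.pi_pos
  have ht : Transcendental ℚ (Real.pi : ℂ) := Pool.Agent.H340R2.LW.transcendental_pi_complex
  have h1 : Real.pi ≠ 1 := by
    have := Real.pi_gt_three
    intro h
    rw [h] at this
    norm_num at this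
  refine ⟨fun g γ => ⟨fun x hx h => V11268.PerG.inP_alg γ hx h, fun c hc hc1 =>
    ⟨fun h hh => V11268.PerG.tower_few γ h0 ht hc hc1 hh,
      fun B X hX => V11268.PerG.tower_energy γ h0 ht hc hc1 B X hX,
      fun a h hh N => V11268.PerG.tower_ap γ h0 ht hc hc1 a hh N⟩⟩,
    fun c hc hc1 N => V11268.PerG.tower_alg h0 ht hc hc1 N,
    fun N => V11268.PerG.tower_alg h0 ht h0 h1 N⟩

end Pool.Agent.Results.MP_4c2ad3_nt.DifferencesOfExponents
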