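import Pool.Agent.H218.ZP.Alg
import Pool.Agent.TH456.TM.Inst

/-!
# Finite-state prediction of the digits of polynomials in `π`, `π ^ π`, `π ^ (π ^ π)`, …

`t_0 = π`, `t_(k+1) = π ^ (t_k)`, so that `t_1 = π ^ π`. Integer polynomials `P` in `r + 1` variables of total degree at most `d`
and height at most `H`, denominators `1 ≤ D ≤ H`; a machine with `S` states predicts `N ≥ τ / log b` digits
of `P(t_0, …, t_r) / D` in base `b`.

(1) If `m` machines for `P_1, …, P_m` make less than
`(log τ - log (∑ S_i log b_i + log H)) / log (m κ) - C` wrong guesses in all, then there are algebraic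
functions `y_1, …, y_r` of `X` such that all `P_i(X, y_1, …, y_r)` are rational numbers.

(2) For each `τ`, `H` and each bound `s` for the size `S log b` there are algebraic functions
`y_1, …, y_r` such that `P(X, y_1, …, y_r)` is a rational number for ALL `P` for which the digits of some
number `P(t_0, …, t_r) / D` are predicted by some machine with less than
`(log τ - log (s + log H)) / (N log (N κ)) - C` wrong guesses, `N = (d + 1) ^ (r + 1)`.
-/

set_option autoImplicit false

namespace Pool.Agent.Results.MP_4c2ad3_nt.PredictionOfPolynomials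

open Polynomial

/-- the field of the algebraic functions of one variable `X` (over the rational numbers) -/
abbrev AlgFun : Type := AlgebraicClosure (FractionRing ℤ[X])

/-- the variable `X` as an algebraic function -/
noncomputable def theX : AlgFun :=
  algebraMap (FractionRing ℤ[X]) AlgFun (algebraMap ℤ[X] (FractionRing ℤ[X]) X)

/-- the iterated powers: `tower 0 = π`, `tower (k + 1) = π ^ (tower k)` -/
noncomputable def tower : ℕ → ℝ
  | 0 => Real.pi
  | k + 1 => Real.pi ^ (tower k)

/-- `P` has total degree at most `d` and coefficients of absolute value at most `H` -/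
def Bounded {n : ℕ} (d : ℕ) (H : ℝ) (P : MvPolynomial (Fin n) ℤ) : Prop :=
  P.totalDegree ≤ d ∧ ∀ m, |((P.coeff m : ℤ) : ℝ)| ≤ H

/-- the real number `P(t_0, …, t_r)` -/
noncomputable def value {r : ℕ} (P : MvPolynomial (Fin (r + 1)) ℤ) : ℝ :=
  P.eval₂ (Int.castRingHom ℝ) (fun k : Fin (r + 1) => tower k)

/-- the `i`-th digit of `x` after the point in base `b` -/
noncomputable def digit (b : ℕ) (x : ℝ) (i : ℕ) : ℤ := ⌊x * (b : ℝ) ^ i⌋ % (b : ℤ)

/-- A machine with `S` states: the transition function, the guess announced in each state, and the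
initial state. -/
structure Machine (S : ℕ) where
  next : Fin S → ℤ → Fin S
  guess : Fin S → ℤ
  start : Fin S

/-- The state of the machine after it has read the first `i` digits of `x` in base `b`. -/
noncomputable def Machine.state {S : ℕ} (A : Machine S) (b : ℕ) (x : ℝ) : ℕ → Fin S
  | 0 => A.start
  | i + 1 => A.next (A.state b x i) (digit b x (i + 1))

/-- The number of the wrong guesses for the first `N` digits of `x` in base `b`: the guess for the
digit number `i + 1` is announced when the machine has read the first `i` digits. -/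
noncomputable def Machine.errors {S : ℕ} (A : Machine S) (b : ℕ) (x : ℝ) (N : ℕ) : ℕ :=
  ((Finset.range N).filter (fun i => A.guess (A.state b x i) ≠ digit b x (i + 1))).card

/-- Some `N ≥ τ / log b` digits of `x` in some base `b` are predicted with less than `e` wrong guesses
by some machine with `S` states, `S log b ≤ s`. -/
def Predicted (s τ e x : ℝ) : Prop :=
  ∃ (b S N : ℕ) (A : Machine S), 2 ≤ b ∧ S * Real.log b ≤ s ∧ τ ≤ N * Real.log b ∧
    (A.errors b x N : ℝ) < e

/-- the machine in the notation of the helper file -/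
def Machine.toH {S : ℕ} (A : Machine S) : Pool.Agent.H218.ZW.Machine (Fin S) :=
  ⟨A.next, A.guess, A.start⟩

theorem state_eq {S : ℕ} (A : Machine S) (b : ℕ) (x : ℝ) (i : ℕ) :
    A.toH.state b x i = A.state b x i := by
  induction i with
  | zero => rfl
  | succ i ih =>
    show A.next (A.toH.state b x i) _ = A.next (A.state b x i) _
    rw [ih]
    rfl

theorem errors_eq {S : ℕ} (A : Machine S) (b : ℕ) (x : ℝ) (N : ℕ) :
    A.toH.errors b x N = A.errors b x N := by
  unfold Machine.errors Pool.Agent.H218.ZW.Machine.errors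
  congr 1
  apply Finset.filter_congr
  intro i _
  rw [state_eq]
  rfl

theorem pred_toH (s t e x : ℝ) (h : Predicted s t e x) : Pool.Agent.H218.ZP.Predicted s t e x := by
  obtain ⟨b, S, N, A, h1, h2, h3, h4⟩ := h
  exact ⟨b, S, N, A.toH, h1, h2, h3, by rw [errors_eq]; exact h4⟩

/-- **Finite-state prediction of the digits of polynomials in `π`, `π ^ π`, ….** -/
theorem result : ∀ r d : ℕ, ∃ κ : ℝ, 1 < κ ∧
    -- (1) several polynomials
    (∀ m : ℕ, 1 ≤ m → ∃ C : ℝ, ∀ (H τ : ℝ) (P : Fin m → MvPolynomial (Fin (r + 1)) ℤ)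
      (D b S N : Fin m → ℕ) (A : ∀ i, Machine (S i)), 1 ≤ H → 0 < τ → (∀ i, Bounded d H (P i)) →
      (∀ i, 1 ≤ D i) → (∀ i, (D i : ℝ) ≤ H) → (∀ i, 2 ≤ b i) → (∀ i, τ ≤ N i * Real.log (b i)) →
      ∑ i, ((A i).errors (b i) (value (P i) / D i) (N i) : ℝ) <
        (Real.log τ - Real.log (∑ i, S i * Real.log (b i) + Real.log H)) / Real.log (m * κ) - C →
      ∃ y : Fin r → AlgFun, ∀ i, ∃ q : ℚ,
        (P i).eval₂ (Int.castRingHom AlgFun) (Fin.cons theX y) = q) ∧
    -- (2) all polynomials at one scale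
    (∃ C : ℝ, ∀ H τ s e : ℝ, 1 ≤ H → 0 < τ →
      e = (Real.log τ - Real.log (s + Real.log H)) /
        (((d + 1) ^ (r + 1) : ℕ) * Real.log (((d + 1) ^ (r + 1) : ℕ) * κ)) - C →
      ∃ y : Fin r → AlgFun, ∀ (P : MvPolynomial (Fin (r + 1)) ℤ) (D : ℕ), Bounded d H P → 1 ≤ D →
        (D : ℝ) ≤ H → Predicted s τ e (value P / D) →
        ∃ q : ℚ, P.eval₂ (Int.castRingHom AlgFun) (Fin.cons theX y) = q) := by
  intro r d
  obtain ⟨κ, hκ, h⟩ := Pool.Agent.H218.ZP.predictAlg Real.pi Pool.Agent.TH456.TM.measT_pi r d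
  obtain ⟨T, hT⟩ : ∃ T : ℝ, ∀ i : Fin r, |tower (i + 1)| ≤ T := by
    obtain ⟨T, hT⟩ := (Set.finite_range fun i : Fin r => |tower (i + 1)|).bddAbove
    exact ⟨T, fun i => hT ⟨i, rfl⟩⟩
  obtain ⟨h1, h2⟩ := h T
  have h3 : (Fin.cons Real.pi (fun i : Fin r => tower (i + 1)) :
      Fin (r + 1) → ℝ) = fun k : Fin (r + 1) => tower k := by
    funext k
    refine Fin.cases ?_ (fun j => ?_) k
    · simp [tower]
    · simp
  refine ⟨κ, hκ, fun m hm => ?_, ?_⟩
  · obtain ⟨C, hC⟩ := h1 m hm
    refine ⟨C, fun H τ P D b S N A a1 a2 a3 a4 a5 a6 a7 a8 => ?_⟩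
    refine hC (fun i : Fin r => tower (i + 1)) hT H τ P D b S N (fun i => (A i).toH) a1 a2 a3 a4 a5
      a6 a7 ?_
    push_cast
    simp only [errors_eq, h3]
    exact a8
  · obtain ⟨C, hC⟩ := h2
    refine ⟨C, fun H τ s e a1 a2 a3 => ?_⟩
    obtain ⟨y, hy⟩ := hC (fun i : Fin r => tower (i + 1)) hT H τ s a1 a2
    refine ⟨y, fun P D b1 b2 b3 b4 => hy P D b1 b2 b3 ?_⟩
    rw [← a3, h3]
    exact pred_toH _ _ _ _ b4

end Pool.Agent.Results.MP_4c2ad3_nt.PredictionOfPolynomials
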