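import Pool.Agent.V11252.NP.Five

set_option autoImplicit false

/-!
# MP_4c2ad3_nt: the numbers `π ^ π`, `π ^ (π²)`, `π ^ (π³)` and `n ^ log π`

`LogForms` is the space of all linear combinations, with algebraic coefficients, of `1` and of
logarithms of algebraic numbers; `InP t` says that `t > 0` and `log t ∈ LogForms`, i.e.
`t = e ^ γ α₁ ^ β₁ ⋯ αₖ ^ βₖ` with algebraic `γ`, `αᵢ`, `βᵢ`.  All positive algebraic numbers have
this property.

The proofs use the strong six exponentials theorem of Roy (library: helper301, helper335) with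
`π ∈ LogForms` as an additional entry, and Baker's theorem.
-/

namespace Pool.Agent.Results.MP_4c2ad3_nt.ThreePowers

/-- The linear combinations, with algebraic coefficients, of `1` and of logarithms of algebraic
numbers. -/
noncomputable def LogForms : Submodule (algebraicClosure ℚ ℂ) ℂ :=
  Submodule.span (algebraicClosure ℚ ℂ) ({1} ∪ {z : ℂ | IsAlgebraic ℚ (Complex.exp z)})

/-- `t > 0` and `log t` is in `LogForms`. -/
def InP (t : ℝ) : Prop := 0 < t ∧ ((Real.log t : ℝ) : ℂ) ∈ LogForms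

/-- Multiplicative independence. -/
def MInd {r : ℕ} (α : Fin r → ℝ) : Prop := ∀ k : Fin r → ℤ, ∏ i, α i ^ k i = 1 → k = 0

/-- The set is empty or consists of the powers `n₁, n₁ ^ 2, n₁ ^ 3, …` of one integer `n₁ ≥ 2`. -/
def PowersOfOne (S : Set ℕ) : Prop :=
  S = ∅ ∨ ∃ n₁ : ℕ, 2 ≤ n₁ ∧ S = {n | ∃ k : ℕ, 1 ≤ k ∧ n = n₁ ^ k}

open Pool.Agent.H301R2.SSE Pool.Agent.H340R2 Pool.Agent.H462R2.PiE Pool.Agent.H137R5.Tow

open Classical in
/-- **Main result.**
(1) For every real `x ≠ 0` for which `π ^ x` and `π ^ (π x)` are algebraic, `π ^ (π² x)` does not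
have the property `InP`.  In particular (`x = π`) at least one of `π ^ π`, `π ^ (π²)`, `π ^ (π³)` is
transcendental, and if the first two are algebraic then the third one does not have the property
`InP`.
(2) For any two multiplicatively independent positive algebraic numbers `α 0`, `α 1`, the number
`π ^ π` is transcendental or one of the numbers `(α 0) ^ log π`, `(α 1) ^ log π` does not have the
property `InP`.
(3) If `π ^ π` is algebraic, then the set of the integers `n ≥ 2` for which `n ^ log π = π ^ log n`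
has the property `InP` is empty or consists of the powers of one integer, so it has at most
`log₂ N` elements `≤ N`.
(4) For every positive algebraic `α ≠ 1`, the number `π ^ π` is transcendental or one of `π`,
`α ^ log π` does not have the property `InP`.
(5) At most `2 √N + 1` of the numbers `π ^ (π ^ k)`, `1 ≤ k ≤ N`, have the property `InP`.
(6) A positive number `t` without the property `InP` is transcendental, and so are `e ^ γ t ^ δ` for
algebraic `γ` and algebraic `δ ≠ 0`. -/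
theorem result :
    ((∀ x : ℝ, x ≠ 0 → IsAlgebraic ℚ (Real.pi ^ x) → IsAlgebraic ℚ (Real.pi ^ (Real.pi * x)) →
        ¬ InP (Real.pi ^ (Real.pi ^ 2 * x))) ∧
      (IsAlgebraic ℚ (Real.pi ^ Real.pi) → IsAlgebraic ℚ (Real.pi ^ (Real.pi ^ 2)) →
        ¬ InP (Real.pi ^ (Real.pi ^ 3))) ∧
      (Transcendental ℚ (Real.pi ^ Real.pi) ∨ Transcendental ℚ (Real.pi ^ (Real.pi ^ 2)) ∨
        Transcendental ℚ (Real.pi ^ (Real.pi ^ 3)))) ∧
    (∀ α : Fin 2 → ℝ, (∀ i, 0 < α i) → (∀ i, IsAlgebraic ℚ (α i)) → MInd α →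
      Transcendental ℚ (Real.pi ^ Real.pi) ∨ ∃ i, ¬ InP (α i ^ Real.log Real.pi)) ∧
    (IsAlgebraic ℚ (Real.pi ^ Real.pi) →
      PowersOfOne {n : ℕ | 2 ≤ n ∧ InP ((n : ℝ) ^ Real.log Real.pi)} ∧
      ∀ N : ℕ, ((Finset.Icc 2 N).filter
        (fun n : ℕ => InP ((n : ℝ) ^ Real.log Real.pi))).card ≤ Nat.log 2 N) ∧
    (∀ α : ℝ, 0 < α → IsAlgebraic ℚ α → α ≠ 1 →
      Transcendental ℚ (Real.pi ^ Real.pi) ∨ ¬ InP Real.pi ∨ ¬ InP (α ^ Real.log Real.pi)) ∧
    (∀ N : ℕ, (((Finset.Icc 1 N).filter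
      (fun k : ℕ => InP (Real.pi ^ (Real.pi ^ k)))).card : ℝ) ≤ 2 * Real.sqrt N + 1) ∧
    (∀ t : ℝ, 0 < t → ¬ InP t → Transcendental ℚ t ∧
      ∀ γ δ : ℂ, IsAlgebraic ℚ γ → IsAlgebraic ℚ δ → δ ≠ 0 →
        Transcendental ℚ (Complex.exp (γ + δ * ((Real.log t : ℝ) : ℂ)))) := by
  have hpi := LW.transcendental_pi
  have hp0 := Real.pi_pos
  have hL0 : Real.log Real.pi ≠ 0 := (Real.log_pos (by linarith [Real.pi_gt_three])).ne'
  have hpow : ∀ x : ℝ, Real.pi ^ x = Real.exp (x * Real.log Real.pi) := fun x => by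
    rw [Real.rpow_def_of_pos hp0, mul_comm]
  have hfree : ∀ t : ℝ, 0 < t → ¬ InP t → Transcendental ℚ t ∧
      ∀ γ δ : ℂ, IsAlgebraic ℚ γ → IsAlgebraic ℚ δ → δ ≠ 0 →
        Transcendental ℚ (Complex.exp (γ + δ * ((Real.log t : ℝ) : ℂ))) := by
    intro t ht hn
    have hf : Free t := by
      by_contra hf
      exact hn ⟨ht, bad_of_not_free hf⟩
    exact ⟨free_tr ht hf, fun γ δ hγ hδ hδ0 => free_pow hf γ δ hγ hδ hδ0⟩
  have hlog : ∀ x : ℝ, Real.log (Real.pi ^ x) = x * Real.log Real.pi := fun x =>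
    Real.log_rpow hp0 x
  have h1 : ∀ x : ℝ, x ≠ 0 → IsAlgebraic ℚ (Real.pi ^ x) →
      IsAlgebraic ℚ (Real.pi ^ (Real.pi * x)) → ¬ InP (Real.pi ^ (Real.pi ^ 2 * x)) := by
    intro x hx a1 a2 a3
    have a4 := a3.2
    rw [hlog] at a4
    rw [hpow] at a1 a2
    refine Pool.Agent.V11252.NP.five Real.pi hpi 1 0 isAlgebraic_one isAlgebraic_zero
      (Or.inl one_ne_zero) (by rw [zero_mul, add_zero, mul_one]; exact pi_mem)
      (x * Real.log Real.pi) (mul_ne_zero hx hL0) a1 (by rw [← mul_assoc]; exact a2) ?_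
    rw [← mul_assoc]
    exact a4
  have h2 : IsAlgebraic ℚ (Real.pi ^ Real.pi) → IsAlgebraic ℚ (Real.pi ^ (Real.pi ^ 2)) →
        ¬ InP (Real.pi ^ (Real.pi ^ 3)) := by
    intro a1 a2
    have := h1 Real.pi hp0.ne' a1 (by rw [← pow_two]; exact a2)
    rwa [show Real.pi ^ 2 * Real.pi = Real.pi ^ 3 by ring] at this
  -- `log π` is transcendental if `π ^ π` is algebraic
  have hLt : IsAlgebraic ℚ (Real.pi ^ Real.pi) → Transcendental ℚ (Real.log Real.pi) := by
    intro a hL
    apply Pool.Agent.V11252.NP.exp_mul_pi_tr hL hL0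
    rw [mul_comm, ← hpow]
    exact a
  have hLpi : IsAlgebraic ℚ (Real.pi ^ Real.pi) →
      ((Real.log Real.pi : ℝ) : ℂ) * (0 + 1 * (Real.pi : ℂ)) ∈ Lt := by
    intro a
    have := log_mem' (Real.rpow_pos_of_pos hp0 Real.pi) a
    rw [hlog] at this
    rw [zero_add, one_mul, mul_comm]
    push_cast at this
    exact this
  have h3 : IsAlgebraic ℚ (Real.pi ^ Real.pi) → ∀ α : Fin 2 → ℝ, (∀ i, 0 < α i) →
      (∀ i, IsAlgebraic ℚ (α i)) → MInd α → ∃ i, ¬ InP (α i ^ Real.log Real.pi) := by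
    intro a α hα ha hi
    exact Pool.Agent.V11252.NP.two_excl (Real.log Real.pi) (hLt a) 0 1 isAlgebraic_zero
      isAlgebraic_one (Or.inr one_ne_zero) (hLpi a) α hα ha hi
  refine ⟨⟨h1, h2, ?_⟩, ?_, ?_, ?_, ?_, hfree⟩
  · by_contra hcon
    push Not at hcon
    obtain ⟨c1, c2, c3⟩ := hcon
    rw [Transcendental, not_not] at c1 c2 c3
    exact h2 c1 c2 (Pool.Agent.V11252.NP.inP_alg (Real.rpow_pos_of_pos hp0 _) c3)
  · intro α hα ha hi
    by_cases a : IsAlgebraic ℚ (Real.pi ^ Real.pi)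
    · exact Or.inr (h3 a α hα ha hi)
    · exact Or.inl a
  · intro a
    have h4 := (Pool.Agent.V11252.NP.three_sets (Real.log Real.pi) (h3 a)).2.2
    exact ⟨h4, fun N => Pool.Agent.V11252.NP.card_powers _ h4 N _ fun n hn h => ⟨hn, h⟩⟩
  · intro α hα ha h1
    by_contra hcon
    push Not at hcon
    obtain ⟨c1, c2, c3⟩ := hcon
    rw [Transcendental, not_not] at c1
    have hl0 : Real.log α ≠ 0 := log_ne hα h1
    refine core (Real.log Real.pi) (hLt c1) (1 : ℂ) (0 + 1 * (Real.pi : ℂ))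
      ((Real.log α : ℝ) : ℂ) ?_ Lt_one
      (Pool.Agent.V11252.NP.lt_uv isAlgebraic_zero isAlgebraic_one) (log_mem' hα ha) ?_ (hLpi c1)
      ((Pool.Agent.V11252.NP.inP_rpow hα).1 c3)
    · intro a c d ha' hc hd hs
      have := bkn (fun _ : Fin 1 => Real.log α) (fun _ => by rw [Real.exp_log hα]; exact ha) (by
        intro p hp i
        fin_cases i
        rw [Fin.sum_univ_one] at hp
        have : (p 0 : ℝ) = 0 := (mul_eq_zero.1 hp).resolve_right hl0
        exact_mod_cast this) a c (fun _ => d) ha' hc (fun _ => hd) (by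
        rw [Fin.sum_univ_one]
        linear_combination hs)
      exact ⟨this.1, this.2.2, this.2.1 0⟩
    · rw [mul_one]
      exact c2.2
  · intro N
    have h5 := topCount Real.pi (Real.log Real.pi) hpi hL0 N
    have h6 : (Finset.Icc 1 N).filter (fun k : ℕ => InP (Real.pi ^ (Real.pi ^ k))) =
        (Finset.Icc 1 N).filter (fun k : ℕ => InE Real.pi (Real.log Real.pi) k) := by
      apply Finset.filter_congr
      intro k _
      unfold InE InP
      rw [hlog]
      exact ⟨fun h => h.2, fun h => ⟨Real.rpow_pos_of_pos hp0 _, h⟩⟩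
    rw [h6]
    exact h5

end Pool.Agent.Results.MP_4c2ad3_nt.ThreePowers
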